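import Mathlib

/-!
The three-dimensional polarized relation at `κ⁺` fails for every infinite cardinal `κ` (in ZFC).
-/

open Cardinal Set

namespace Pool.Agent.Results.MP_04d4af_lc.NoArrow

universe u

/-- The polarized partition relation `(a₁, a₂, a₃) → (b₁, b₂, b₃)^{1,1,1}_2`: every colouring of
`a₁ × a₂ × a₃` with two colours is constant on some product `H₁ × H₂ × H₃` with `|Hᵢ| = bᵢ`. -/
def PolarizedArrow (a₁ a₂ a₃ b₁ b₂ b₃ : Cardinal.{u}) : Prop :=
  ∀ c : a₁.ord.ToType → a₂.ord.ToType → a₃.ord.ToType → Fin 2,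
    ∃ (k : Fin 2) (H₁ : Set a₁.ord.ToType) (H₂ : Set a₂.ord.ToType) (H₃ : Set a₃.ord.ToType),
      #H₁ = b₁ ∧ #H₂ = b₂ ∧ #H₃ = b₃ ∧ ∀ x ∈ H₁, ∀ y ∈ H₂, ∀ z ∈ H₃, c x y z = k

section proof

variable {α W : Type u} [LinearOrder α] [WellFoundedLT α] [LinearOrder W] [WellFoundedLT W]
variable (e : α → α → W)

/-- The basic condition on an increasing triple. -/
def good (x y z : α) : Prop := e z y < e z x ∧ e z y < e y x

/-- Every increasing triple from `A × B × C` is good. -/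
def allGood (A B C : Set α) : Prop :=
  ∀ a ∈ A, ∀ b ∈ B, ∀ c ∈ C, a < b → b < c → good e a b c

/-- No increasing triple from `A × B × C` is good. -/
def noneGood (A B C : Set α) : Prop :=
  ∀ a ∈ A, ∀ b ∈ B, ∀ c ∈ C, a < b → b < c → ¬ good e a b c

theorem mono_all {A B C A' B' C' : Set α} (hA : A' ⊆ A) (hB : B' ⊆ B) (hC : C' ⊆ C)
    (h : allGood e A B C) : allGood e A' B' C' :=
  fun a ha b hb c hc => h a (hA ha) b (hB hb) c (hC hc)

theorem mono_none {A B C A' B' C' : Set α} (hA : A' ⊆ A) (hB : B' ⊆ B) (hC : C' ⊆ C)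
    (h : noneGood e A B C) : noneGood e A' B' C' :=
  fun a ha b hb c hc => h a (hA ha) b (hB hb) c (hC hc)

variable {κ : Cardinal.{u}}

/-- `A` is a set of size `κ` contained in the initial segment below `d`, and with fewer than `κ`
elements below every `y < d`. -/
structure Tame (κ : Cardinal.{u}) (A : Set α) (d : α) : Prop where
  card : #A = κ
  sub : A ⊆ Iio d
  small : ∀ y < d, #(A ∩ Iio y : Set α) < κ

theorem exists_tame (hκ : ℵ₀ ≤ κ) (hα : κ < #α) (hseg : ∀ x : α, #(Iio x) ≤ κ) (A : Set α)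
    (hA : #A = κ) : ∃ (A' : Set α) (d : α), A' ⊆ A ∧ Tame κ A' d := by
  have hbd : ∃ x : α, κ ≤ #(A ∩ Iio x : Set α) := by
    by_contra hcon
    push Not at hcon
    have hcov : (univ : Set α) ⊆ ⋃ a : A, Iic (a : α) := by
      intro x _
      by_contra hx
      simp only [mem_iUnion, mem_Iic, not_exists, not_le] at hx
      have h1 : A ∩ Iio x = A := by
        ext y
        exact ⟨fun h => h.1, fun h => ⟨h, hx ⟨y, h⟩⟩⟩
      have := hcon x
      rw [h1, hA] at this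
      exact lt_irrefl _ this
    have hle : #(univ : Set α) ≤ κ := by
      refine (mk_le_mk_of_subset hcov).trans ((mk_iUnion_le _).trans ?_)
      rw [hA]
      have : (⨆ a : A, #(Iic (a : α))) ≤ κ := by
        apply ciSup_le'
        intro a
        have : Iic (a : α) ⊆ Iio (a : α) ∪ {(a : α)} := by
          intro y hy
          rcases lt_or_eq_of_le hy with h | h
          · exact Or.inl h
          · exact Or.inr h
        refine (mk_le_mk_of_subset this).trans ((mk_union_le _ _).trans ?_)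
        refine (add_le_add (hseg a) (le_refl _)).trans ?_
        rw [mk_singleton]
        exact (add_one_eq hκ).le
      exact (mul_le_mul' le_rfl this).trans (mul_eq_self hκ).le
    rw [mk_univ] at hle
    exact absurd hα (not_lt.2 hle)
  have hmin : ∃ d : α, κ ≤ #(A ∩ Iio d : Set α) ∧ ∀ y < d, ¬ κ ≤ #(A ∩ Iio y : Set α) := by
    obtain ⟨d, hd, hm⟩ := WellFounded.has_min (wellFounded_lt (α := α))
      {x | κ ≤ #(A ∩ Iio x : Set α)} hbd
    exact ⟨d, hd, fun y hy h => hm y h hy⟩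
  obtain ⟨d, hd, hm⟩ := hmin
  refine ⟨A ∩ Iio d, d, inter_subset_left, ⟨?_, inter_subset_right, ?_⟩⟩
  · apply le_antisymm _ hd
    rw [← hA]
    exact mk_le_mk_of_subset inter_subset_left
  · intro y hy
    have : A ∩ Iio d ∩ Iio y ⊆ A ∩ Iio y := fun z hz => ⟨hz.1.1, hz.2⟩
    exact (mk_le_mk_of_subset this).trans_lt (not_le.1 (hm y hy))

theorem tame_tail (hκ : ℵ₀ ≤ κ) {A : Set α} {d : α} (h : Tame κ A d) {y : α} (hy : y < d) :
    #(A ∩ Ioi y : Set α) = κ := by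
  apply le_antisymm
  · rw [← h.card]; exact mk_le_mk_of_subset inter_subset_left
  by_contra hlt
  rw [not_le] at hlt
  have hsub : A ⊆ (A ∩ Iio y) ∪ ({y} ∪ (A ∩ Ioi y)) := by
    intro z hz
    rcases lt_trichotomy z y with h1 | h1 | h1
    · exact Or.inl ⟨hz, h1⟩
    · exact Or.inr (Or.inl h1)
    · exact Or.inr (Or.inr ⟨hz, h1⟩)
  have h1 : #A < κ := by
    refine (mk_le_mk_of_subset hsub).trans_lt ((mk_union_le _ _).trans_lt ?_)
    apply add_lt_of_lt hκ (h.small y hy)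
    refine (mk_union_le _ _).trans_lt ?_
    apply add_lt_of_lt hκ _ hlt
    rw [mk_singleton]
    exact one_lt_aleph0.trans_le hκ
  rw [h.card] at h1
  exact lt_irrefl _ h1

theorem tame_exists_gt (hκ : ℵ₀ ≤ κ) {A : Set α} {d : α} (h : Tame κ A d) {y : α} (hy : y < d) :
    ∃ a ∈ A, y < a := by
  have h1 := tame_tail hκ h hy
  have : (A ∩ Ioi y : Set α).Nonempty := by
    rw [← mk_set_ne_zero_iff, h1]
    intro h0; rw [h0] at hκ
    exact absurd hκ (not_le.2 aleph0_pos)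
  obtain ⟨a, ha⟩ := this
  exact ⟨a, ha.1, ha.2⟩

theorem tame_nonempty (hκ : ℵ₀ ≤ κ) {A : Set α} {d : α} (h : Tame κ A d) : A.Nonempty := by
  rw [← mk_set_ne_zero_iff, h.card]
  intro h0; rw [h0] at hκ
  exact absurd hκ (not_le.2 aleph0_pos)

/-- the set of points of `H` at which an injective function takes a value at most `w` is small -/
theorem small_le (hκ : ℵ₀ ≤ κ) (hW : ∀ w : W, #(Iio w) < κ) {μ : α}
    (he : Set.InjOn (e μ) (Iio μ)) (H : Set α) (hH : H ⊆ Iio μ) (w : W) :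
    #({x ∈ H | e μ x ≤ w} : Set α) < κ := by
  have h1 : #({x ∈ H | e μ x ≤ w} : Set α) ≤ #(Iic w) := by
    apply Cardinal.mk_le_of_injective (f := fun x => (⟨e μ x.1, x.2.2⟩ : Iic w))
    intro x y hxy
    have : e μ x.1 = e μ y.1 := congrArg Subtype.val hxy
    exact Subtype.ext (he (hH x.2.1) (hH y.2.1) this)
  refine h1.trans_lt ?_
  have : Iic w ⊆ Iio w ∪ {w} := by
    intro y hy
    rcases lt_or_eq_of_le hy with h | h
    · exact Or.inl h
    · exact Or.inr h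
  refine (mk_le_mk_of_subset this).trans_lt ((mk_union_le _ _).trans_lt ?_)
  apply add_lt_of_lt hκ (hW w)
  rw [mk_singleton]
  exact one_lt_aleph0.trans_le hκ

/-- if no triple of `X × Y × Z` is good then there are no `ν ∈ Y`, `μ ∈ Z` with
`d_X ≤ ν < μ`. -/
theorem none_imp (hκ : ℵ₀ ≤ κ) (hW : ∀ w : W, #(Iio w) < κ)
    (he : ∀ μ, Set.InjOn (e μ) (Iio μ)) {X Y Z : Set α} {dX : α} (hX : Tame κ X dX)
    (h : noneGood e X Y Z) {ν μ : α} (hν : ν ∈ Y) (hμ : μ ∈ Z) (h1 : dX ≤ ν) (h2 : ν < μ) :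
    False := by
  have hXν : X ⊆ Iio ν := fun x hx => (hX.sub hx : x < dX).trans_le h1
  have hXμ : X ⊆ Iio μ := fun x hx => (hXν hx : x < ν).trans h2
  have s1 := small_le e hκ hW (he ν) X hXν (e μ ν)
  have s2 := small_le e hκ hW (he μ) X hXμ (e μ ν)
  have hsub : X ⊆ {x ∈ X | e ν x ≤ e μ ν} ∪ {x ∈ X | e μ x ≤ e μ ν} := by
    intro x hx
    by_contra hcon
    simp only [mem_union, mem_setOf_eq, not_or, not_and, not_le] at hcon
    exact h x hx ν hν μ hμ (hXν hx) h2 ⟨hcon.2 hx, hcon.1 hx⟩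
  have : #X < κ := (mk_le_mk_of_subset hsub).trans_lt
    ((mk_union_le _ _).trans_lt (add_lt_of_lt hκ s1 s2))
  rw [hX.card] at this
  exact lt_irrefl _ this

/-- if all triples of `X × Y × Z` are good, `μ ∈ Z` and `d_Y ≤ μ`, then `d_Y ≤ ξ` for all
`ξ ∈ X`. -/
theorem all_imp (hκ : ℵ₀ ≤ κ) (hW : ∀ w : W, #(Iio w) < κ)
    (he : ∀ μ, Set.InjOn (e μ) (Iio μ)) {X Y Z : Set α} {dY : α} (hY : Tame κ Y dY)
    (h : allGood e X Y Z) {ξ μ : α} (hξ : ξ ∈ X) (hμ : μ ∈ Z) (h1 : dY ≤ μ) (h2 : ξ < dY) :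
    False := by
  have hYμ : Y ∩ Ioi ξ ⊆ Iio μ := fun x hx => (hY.sub hx.1 : x < dY).trans_le h1
  have s1 := small_le e hκ hW (he μ) (Y ∩ Ioi ξ) hYμ (e μ ξ)
  have hsub : Y ∩ Ioi ξ ⊆ {x ∈ Y ∩ Ioi ξ | e μ x ≤ e μ ξ} := by
    intro x hx
    refine ⟨hx, ?_⟩
    exact (h ξ hξ x hx.1 μ hμ hx.2 (hYμ hx)).1.le
  have : #(Y ∩ Ioi ξ : Set α) < κ := (mk_le_mk_of_subset hsub).trans_lt s1
  rw [tame_tail hκ hY h2] at this
  exact lt_irrefl _ this

theorem descent (hκ : ℵ₀ ≤ κ) {A B C : Set α} {d : α} (hA : Tame κ A d) (hB : Tame κ B d)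
    (hC : Tame κ C d) (h1 : allGood e A B C) (h2 : allGood e B C A) (h3 : allGood e C A B) :
    False := by
  have key : ∀ w : W, ∀ x y : α, (x ∈ A ∧ y ∈ B ∨ x ∈ B ∧ y ∈ C ∨ x ∈ C ∧ y ∈ A) → x < y →
      e y x = w → False := by
    intro w
    induction w using WellFoundedLT.induction with
    | ind w ih =>
      rintro x y (⟨hx, hy⟩ | ⟨hx, hy⟩ | ⟨hx, hy⟩) hxy rfl
      · obtain ⟨z, hz, hyz⟩ := tame_exists_gt hκ hC (hB.sub hy)
        exact ih _ (h1 x hx y hy z hz hxy hyz).2 y z (Or.inr (Or.inl ⟨hy, hz⟩)) hyz rfl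
      · obtain ⟨z, hz, hyz⟩ := tame_exists_gt hκ hA (hC.sub hy)
        exact ih _ (h2 x hx y hy z hz hxy hyz).2 y z (Or.inr (Or.inr ⟨hy, hz⟩)) hyz rfl
      · obtain ⟨z, hz, hyz⟩ := tame_exists_gt hκ hB (hA.sub hy)
        exact ih _ (h3 x hx y hy z hz hxy hyz).2 y z (Or.inl ⟨hy, hz⟩) hyz rfl
  obtain ⟨x, hx⟩ := tame_nonempty hκ hA
  obtain ⟨y, hy, hxy⟩ := tame_exists_gt hκ hB (hA.sub hx)
  exact key _ x y (Or.inl ⟨hx, hy⟩) hxy rfl

/-- the case in which `d_A` is minimal -/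
theorem main_min (hκ : ℵ₀ ≤ κ) (hW : ∀ w : W, #(Iio w) < κ)
    (he : ∀ μ, Set.InjOn (e μ) (Iio μ)) {A B C : Set α} {dA dB dC : α}
    (hA : Tame κ A dA) (hB : Tame κ B dB) (hC : Tame κ C dC)
    (h1 : allGood e A B C) (h2 : allGood e B C A) (h3 : allGood e C A B)
    (n1 : noneGood e A C B) (hAB : dA ≤ dB) (hAC : dA ≤ dC) : False := by
  rcases eq_or_lt_of_le hAB with hAB' | hAB'
  · rcases eq_or_lt_of_le hAC with hAC' | hAC'
    · subst hAB'; subst hAC'
      exact descent e hκ hA hB hC h1 h2 h3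
    · -- dA = dB < dC
      obtain ⟨μ, hμ, hlt⟩ := tame_exists_gt hκ hC hAC'
      obtain ⟨ξ, hξ⟩ := tame_nonempty hκ hA
      subst hAB'
      exact all_imp e hκ hW he hB h1 hξ hμ hlt.le (hA.sub hξ)
  · rcases eq_or_lt_of_le hAC with hAC' | hAC'
    · -- dA = dC < dB
      obtain ⟨μ, hμ, hlt⟩ := tame_exists_gt hκ hB hAB'
      obtain ⟨ξ, hξ⟩ := tame_nonempty hκ hC
      subst hAC'
      exact all_imp e hκ hW he hA h3 hξ hμ hlt.le (hC.sub hξ)
    · -- dA < dB, dC
      obtain ⟨ν, hν, hνlt⟩ := tame_exists_gt hκ hC hAC'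
      have hB' : ∀ μ ∈ B, μ ≤ ν := by
        intro μ hμ
        by_contra hcon
        exact none_imp e hκ hW he hA n1 hν hμ hνlt.le (not_le.1 hcon)
      have hdB : dB ≤ ν := by
        by_contra hcon
        obtain ⟨μ, hμ, hlt⟩ := tame_exists_gt hκ hB (not_le.1 hcon)
        exact absurd (hB' μ hμ) (not_le.2 hlt)
      obtain ⟨ξ, hξ⟩ := tame_nonempty hκ hA
      exact all_imp e hκ hW he hB h1 hξ hν hdB ((hA.sub hξ : ξ < dA).trans hAB')

theorem main (hκ : ℵ₀ ≤ κ) (hα : κ < #α) (hseg : ∀ x : α, #(Iio x) ≤ κ)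
    (hW : ∀ w : W, #(Iio w) < κ)
    (he : ∀ μ, Set.InjOn (e μ) (Iio μ)) {A B C : Set α}
    (hA : #A = κ) (hB : #B = κ) (hC : #C = κ)
    (h1 : allGood e A B C) (h2 : allGood e B C A) (h3 : allGood e C A B)
    (n1 : noneGood e A C B) (n2 : noneGood e C B A) (n3 : noneGood e B A C) : False := by
  obtain ⟨A', dA, sA, tA⟩ := exists_tame hκ hα hseg A hA
  obtain ⟨B', dB, sB, tB⟩ := exists_tame hκ hα hseg B hB
  obtain ⟨C', dC, sC, tC⟩ := exists_tame hκ hα hseg C hC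
  replace h1 := mono_all e sA sB sC h1
  replace h2 := mono_all e sB sC sA h2
  replace h3 := mono_all e sC sA sB h3
  replace n1 := mono_none e sA sC sB n1
  replace n2 := mono_none e sC sB sA n2
  replace n3 := mono_none e sB sA sC n3
  rcases le_total dA dB with hAB | hAB
  · rcases le_total dA dC with hAC | hAC
    · exact main_min e hκ hW he tA tB tC h1 h2 h3 n1 hAB hAC
    · exact main_min e hκ hW he tC tA tB h3 h1 h2 n2 hAC (hAC.trans hAB)
  · rcases le_total dB dC with hBC | hBC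
    · exact main_min e hκ hW he tB tC tA h2 h3 h1 n3 hBC hAB
    · exact main_min e hκ hW he tC tA tB h3 h1 h2 n2 (hBC.trans hAB) hBC

open Classical in
/-- The colouring. -/
noncomputable def col (x y z : α) : Prop :=
  if x < y ∧ y < z then good e x y z
  else if y < z ∧ z < x then good e y z x
  else if z < x ∧ x < y then good e z x y
  else if x < z ∧ z < y then ¬ good e x z y
  else if z < y ∧ y < x then ¬ good e z y x
  else if y < x ∧ x < z then ¬ good e y x z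
  else False

theorem col1 {x y z : α} (h1 : x < y) (h2 : y < z) : col e x y z ↔ good e x y z := by
  unfold col; rw [if_pos ⟨h1, h2⟩]

theorem col2 {x y z : α} (h1 : y < z) (h2 : z < x) : col e x y z ↔ good e y z x := by
  have n1 : ¬ (x < y ∧ y < z) := fun h => absurd (h.1.trans h1) (not_lt.2 h2.le)
  unfold col; rw [if_neg n1, if_pos ⟨h1, h2⟩]

theorem col3 {x y z : α} (h1 : z < x) (h2 : x < y) : col e x y z ↔ good e z x y := by
  have n1 : ¬ (x < y ∧ y < z) := fun h => absurd (h.1.trans h.2) (not_lt.2 h1.le)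
  have n2 : ¬ (y < z ∧ z < x) := fun h => absurd (h.1.trans h.2) (not_lt.2 h2.le)
  unfold col; rw [if_neg n1, if_neg n2, if_pos ⟨h1, h2⟩]

theorem col4 {x y z : α} (h1 : x < z) (h2 : z < y) : col e x y z ↔ ¬ good e x z y := by
  have n1 : ¬ (x < y ∧ y < z) := fun h => absurd h.2 (not_lt.2 h2.le)
  have n2 : ¬ (y < z ∧ z < x) := fun h => absurd h.1 (not_lt.2 h2.le)
  have n3 : ¬ (z < x ∧ x < y) := fun h => absurd h.1 (not_lt.2 h1.le)
  unfold col; rw [if_neg n1, if_neg n2, if_neg n3, if_pos ⟨h1, h2⟩]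

theorem col5 {x y z : α} (h1 : z < y) (h2 : y < x) : col e x y z ↔ ¬ good e z y x := by
  have n1 : ¬ (x < y ∧ y < z) := fun h => absurd h.2 (not_lt.2 h1.le)
  have n2 : ¬ (y < z ∧ z < x) := fun h => absurd h.1 (not_lt.2 h1.le)
  have n3 : ¬ (z < x ∧ x < y) := fun h => absurd h.2 (not_lt.2 h2.le)
  have n4 : ¬ (x < z ∧ z < y) := fun h => absurd (h.1.trans h.2) (not_lt.2 h2.le)
  unfold col; rw [if_neg n1, if_neg n2, if_neg n3, if_neg n4, if_pos ⟨h1, h2⟩]

theorem col6 {x y z : α} (h1 : y < x) (h2 : x < z) : col e x y z ↔ ¬ good e y x z := by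
  have n1 : ¬ (x < y ∧ y < z) := fun h => absurd h.1 (not_lt.2 h1.le)
  have n2 : ¬ (y < z ∧ z < x) := fun h => absurd h.2 (not_lt.2 h2.le)
  have n3 : ¬ (z < x ∧ x < y) := fun h => absurd h.1 (not_lt.2 h2.le)
  have n4 : ¬ (x < z ∧ z < y) := fun h => absurd (h.1.trans h.2) (not_lt.2 h1.le)
  have n5 : ¬ (z < y ∧ y < x) := fun h => absurd (h.1.trans h.2) (not_lt.2 h2.le)
  unfold col; rw [if_neg n1, if_neg n2, if_neg n3, if_neg n4, if_neg n5, if_pos ⟨h1, h2⟩]

theorem no_box (hκ : ℵ₀ ≤ κ) (hα : κ < #α) (hseg : ∀ x : α, #(Iio x) ≤ κ)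
    (hW : ∀ w : W, #(Iio w) < κ)
    (he : ∀ μ, Set.InjOn (e μ) (Iio μ)) {A B C : Set α}
    (hA : #A = κ) (hB : #B = κ) (hC : #C = κ) (q : Prop)
    (hq : ∀ x ∈ A, ∀ y ∈ B, ∀ z ∈ C, (col e x y z ↔ q)) : False := by
  by_cases hqq : q
  · refine main e hκ hα hseg hW he hA hB hC ?_ ?_ ?_ ?_ ?_ ?_
    · intro x hx y hy z hz h1 h2
      exact (col1 e h1 h2).1 ((hq x hx y hy z hz).2 hqq)
    · intro y hy z hz x hx h1 h2
      exact (col2 e h1 h2).1 ((hq x hx y hy z hz).2 hqq)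
    · intro z hz x hx y hy h1 h2
      exact (col3 e h1 h2).1 ((hq x hx y hy z hz).2 hqq)
    · intro x hx z hz y hy h1 h2
      exact (col4 e h1 h2).1 ((hq x hx y hy z hz).2 hqq)
    · intro z hz y hy x hx h1 h2
      exact (col5 e h1 h2).1 ((hq x hx y hy z hz).2 hqq)
    · intro y hy x hx z hz h1 h2
      exact (col6 e h1 h2).1 ((hq x hx y hy z hz).2 hqq)
  · refine main e hκ hα hseg hW he hA hC hB ?_ ?_ ?_ ?_ ?_ ?_
    · intro x hx z hz y hy h1 h2
      by_contra hcon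
      exact hqq ((hq x hx y hy z hz).1 ((col4 e h1 h2).2 hcon))
    · intro z hz y hy x hx h1 h2
      by_contra hcon
      exact hqq ((hq x hx y hy z hz).1 ((col5 e h1 h2).2 hcon))
    · intro y hy x hx z hz h1 h2
      by_contra hcon
      exact hqq ((hq x hx y hy z hz).1 ((col6 e h1 h2).2 hcon))
    · intro x hx y hy z hz h1 h2 hg
      exact hqq ((hq x hx y hy z hz).1 ((col1 e h1 h2).2 hg))
    · intro y hy z hz x hx h1 h2 hg
      exact hqq ((hq x hx y hy z hz).1 ((col2 e h1 h2).2 hg))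
    · intro z hz x hx y hy h1 h2 hg
      exact hqq ((hq x hx y hy z hz).1 ((col3 e h1 h2).2 hg))

end proof

open Classical in
/-- For every infinite cardinal `κ` the polarized relation
`(κ⁺, κ⁺, κ⁺) → (κ, κ, κ)^{1,1,1}_2` fails. -/
theorem result (κ : Cardinal.{u}) (hκ : ℵ₀ ≤ κ) :
    ¬ PolarizedArrow (Order.succ κ) (Order.succ κ) (Order.succ κ) κ κ κ := by
  intro harrow
  let α := (Order.succ κ).ord.ToType
  let W := κ.ord.ToType
  have hα : κ < #α := by
    have : #α = Order.succ κ := mk_ord_toType _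
    rw [this]; exact Order.lt_succ κ
  have hseg : ∀ x : α, #(Iio x) ≤ κ := fun x => Order.lt_succ_iff.1 (mk_Iio_toType_ord_lt x)
  have hW : ∀ w : W, #(Iio w) < κ := fun w => mk_Iio_toType_ord_lt w
  have hWne : Nonempty W := by
    rw [← mk_ne_zero_iff, mk_ord_toType]
    intro h0; rw [h0] at hκ
    exact absurd hκ (not_le.2 aleph0_pos)
  have hex : ∀ μ : α, ∃ f : α → W, Set.InjOn f (Iio μ) := by
    intro μ
    have h1 : #(Iio μ) ≤ #W := by
      rw [mk_ord_toType]; exact hseg μ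
    obtain ⟨g⟩ := h1
    refine ⟨fun x => if h : x ∈ Iio μ then g ⟨x, h⟩ else hWne.some, ?_⟩
    intro x hx y hy hxy
    simp only [dif_pos hx, dif_pos hy] at hxy
    exact congrArg Subtype.val (g.injective hxy)
  choose e he using hex
  obtain ⟨k, H₁, H₂, H₃, c1, c2, c3, hmono⟩ :=
    harrow (fun x y z => if col e x y z then 1 else 0)
  refine no_box e hκ hα hseg hW he c1 c2 c3 (k = 1) ?_
  intro x hx y hy z hz
  have := hmono x hx y hy z hz
  by_cases hc : col e x y z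
  · rw [if_pos hc] at this
    exact ⟨fun _ => this.symm, fun _ => hc⟩
  · rw [if_neg hc] at this
    constructor
    · intro h; exact absurd h hc
    · intro h; rw [h] at this; exact absurd this (by decide)

end Pool.Agent.Results.MP_04d4af_lc.NoArrow
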